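import Pool.Agent.Lib.MP_954a1f_al.Explicit

/-!
`G(a,b)` is infinite whenever `a` and `b` are positive multiples of `180`.
-/

set_option autoImplicit false

namespace Pool.Agent.Variants.MP_954a1f_al.InfiniteMultiples180

/-- The commutator `[u,v] = u⁻¹ v⁻¹ u v`. -/
def comm {H : Type} [Group H] (u v : H) : H := u⁻¹ * v⁻¹ * u * v

/-- `iterComm u v i` is the left-normed commutator of `u` with `i` copies of `v`:
`[u, 0 v] = u` and `[u, (i+1) v] = [[u, i v], v]`; in particular `[u, 1 v] = [u,v]`. -/
def iterComm {H : Type} [Group H] (u v : H) : ℕ → H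
  | 0 => u
  | i + 1 => comm (iterComm u v i) v

/-- The first generator `x` of the free group of rank two. -/
def genX : FreeGroup Bool := FreeGroup.of true

/-- The second generator `y` of the free group of rank two. -/
def genY : FreeGroup Bool := FreeGroup.of false

/-- The relators for the relations `x = [x, a y]` and `y = [y, b x]`. -/
def relators (a b : ℕ) : Set (FreeGroup Bool) :=
  {genX⁻¹ * iterComm genX genY a, genY⁻¹ * iterComm genY genX b}

open Pool.Agent.Lib.MP_954a1f_al

theorem iterComm_eq {H : Type} [Group H] (u v : H) (i : ℕ) : iterComm u v i = (eng v)^[i] u := by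
  induction i with
  | zero => rfl
  | succ i ih => rw [Function.iterate_succ_apply', iterComm, ih]; rfl

theorem infinite_of_periodic (c : ℕ) (hc : ¬ Finite (PresentedGroup (rels c c))) (k l : ℕ) :
    Infinite (PresentedGroup (relators (c * k) (c * l))) := by
  let f : Bool → PresentedGroup (rels c c) := fun s =>
    if s = true then PresentedGroup.of 0 else PresentedGroup.of 1
  have hx : FreeGroup.lift f genX = PresentedGroup.of 0 := by simp [genX, f]
  have hy : FreeGroup.lift f genY = PresentedGroup.of 1 := by simp [genY, f]
  have hf : ∀ r ∈ relators (c * k) (c * l), FreeGroup.lift f r = 1 := by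
    intro r hr
    rcases hr with rfl | rfl
    · rw [map_mul, map_inv, iterComm_eq, map_eng_iterate, hx, hy]
      have h : Function.IsPeriodicPt (eng (PresentedGroup.of 1 : PresentedGroup (rels c c))) c
          (PresentedGroup.of 0) := rel_x c c
      rw [(h.mul_const k).eq, inv_mul_cancel]
    · rw [map_mul, map_inv, iterComm_eq, map_eng_iterate, hx, hy]
      have h : Function.IsPeriodicPt (eng (PresentedGroup.of 0 : PresentedGroup (rels c c))) c
          (PresentedGroup.of 1) := rel_y c c
      rw [(h.mul_const l).eq, inv_mul_cancel]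
  have hsurj : Function.Surjective (PresentedGroup.toGroup hf) := by
    rw [← MonoidHom.range_eq_top, eq_top_iff]
    intro g _
    refine PresentedGroup.generated_by _ _ (fun j => ?_) g
    fin_cases j
    · exact ⟨PresentedGroup.of true, by simp [f]⟩
    · exact ⟨PresentedGroup.of false, by simp [f]⟩
  have : Infinite (PresentedGroup (rels c c)) := not_finite_iff_infinite.mp hc
  exact Infinite.of_surjective _ hsurj

/-- For all positive multiples `a`, `b` of `180` the group
`G(a,b) = ⟨x, y | x = [x, a y], y = [y, b x]⟩` is infinite. -/
theorem result (a b : ℕ) (_ha : 0 < a) (_hb : 0 < b) (ha' : 180 ∣ a) (hb' : 180 ∣ b) :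
    Infinite (PresentedGroup (relators a b)) := by
  obtain ⟨k, rfl⟩ := ha'
  obtain ⟨l, rfl⟩ := hb'
  exact infinite_of_periodic 180 not_finite_180 k l

end Pool.Agent.Variants.MP_954a1f_al.InfiniteMultiples180
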